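import Mathlib

set_option autoImplicit false

namespace Pool.Agent.Y239.SQ

open Finset

theorem div_dvd {n h x : ℕ} (hn : 0 < n) (hd : n ∣ h * x) : n / Nat.gcd n h ∣ x := by
  have hg : 0 < Nat.gcd n h := Nat.gcd_pos_of_pos_left _ hn
  have hc : Nat.Coprime (n / Nat.gcd n h) (h / Nat.gcd n h) := Nat.coprime_div_gcd_div_gcd hg
  have h1 : Nat.gcd n h * (n / Nat.gcd n h) = n := Nat.mul_div_cancel' (Nat.gcd_dvd_left _ _)
  have h2 : Nat.gcd n h * (h / Nat.gcd n h) = h := Nat.mul_div_cancel' (Nat.gcd_dvd_right _ _)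
  have h3 : Nat.gcd n h * (n / Nat.gcd n h) ∣ Nat.gcd n h * ((h / Nat.gcd n h) * x) := by
    rw [h1, ← mul_assoc, h2]; exact hd
  have h4 : (n / Nat.gcd n h) ∣ (h / Nat.gcd n h) * x := Nat.dvd_of_mul_dvd_mul_left hg h3
  exact hc.dvd_of_dvd_mul_left h4

theorem div_dvd_int {n h : ℕ} {x : ℤ} (hn : 0 < n) (hd : (n : ℤ) ∣ h * x) :
    ((n / Nat.gcd n h : ℕ) : ℤ) ∣ x := by
  rw [Int.natCast_dvd] at hd ⊢
  rw [Int.natAbs_mul, Int.natAbs_natCast] at hd
  exact div_dvd hn hd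

theorem cnt1 {k a h : ℕ} (hk : 1 ≤ k) (ha : a ∣ k) :
    ((Ioo (-(2 * (k:ℤ))) (2 * k)).filter (fun d : ℤ => (2 * (a:ℤ)) ∣ h * d)).card * a ≤
      4 * k * Nat.gcd h a := by
  have ha0 : 0 < a := Nat.pos_of_dvd_of_pos ha hk
  have hg : 0 < Nat.gcd (2 * a) h := Nat.gcd_pos_of_pos_left _ (by omega)
  set m : ℕ := 2 * a / Nat.gcd (2 * a) h with hm
  have hmg : m * Nat.gcd (2 * a) h = 2 * a := Nat.div_mul_cancel (Nat.gcd_dvd_left _ _)
  have hm0 : 0 < m := by
    rcases Nat.eq_zero_or_pos m with h0 | h0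
    · rw [h0, zero_mul] at hmg; omega
    · exact h0
  obtain ⟨q, hq⟩ : m ∣ 2 * k := by
    have h1 : m ∣ 2 * a := ⟨_, hmg.symm⟩
    exact h1.trans (Nat.mul_dvd_mul_left 2 ha)
  have hcard : ((Ioo (-(2 * (k:ℤ))) (2 * k)).filter (fun d : ℤ => (2 * (a:ℤ)) ∣ h * d)).card ≤
      2 * q := by
    have h2 : ((Ioo (-(2 * (k:ℤ))) (2 * k)).filter (fun d : ℤ => (2 * (a:ℤ)) ∣ h * d)).card ≤
        (Ioo (-(q:ℤ)) q).card := by
      refine card_le_card_of_injOn (fun d => d / m) ?_ ?_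
      · intro d hd
        have hd' : d ∈ (Ioo (-(2 * (k:ℤ))) (2 * k)).filter (fun d : ℤ => (2 * (a:ℤ)) ∣ h * d) := hd
        rw [mem_filter, mem_Ioo] at hd'
        obtain ⟨⟨h3, h4⟩, h5⟩ := hd'
        have h6 : (m : ℤ) ∣ d := by
          apply div_dvd_int (n := 2 * a) (by omega)
          push_cast; exact h5
        obtain ⟨j, rfl⟩ := h6
        have hm0' : (0:ℤ) < m := by exact_mod_cast hm0
        have hq' : 2 * (k:ℤ) = m * q := by exact_mod_cast hq
        show (m:ℤ) * j / m ∈ (Ioo (-(q:ℤ)) q : Finset ℤ)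
        rw [Int.mul_ediv_cancel_left _ hm0'.ne', mem_Ioo]
        rw [hq'] at h3 h4
        constructor
        · by_contra hcon
          push Not at hcon
          have : (m:ℤ) * j ≤ m * (-q) := mul_le_mul_of_nonneg_left hcon hm0'.le
          linarith
        · exact lt_of_mul_lt_mul_left h4 hm0'.le
      · intro d hd d' hd' hdd
        have h5 : (m : ℤ) ∣ d := by
          apply div_dvd_int (n := 2 * a) (by omega)
          push_cast; exact (mem_filter.1 hd).2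
        have h6 : (m : ℤ) ∣ d' := by
          apply div_dvd_int (n := 2 * a) (by omega)
          push_cast; exact (mem_filter.1 hd').2
        have h7 : d / m = d' / m := hdd
        rw [← Int.mul_ediv_cancel' h5, ← Int.mul_ediv_cancel' h6, h7]
    refine h2.trans ?_
    rw [Int.card_Ioo]
    omega
  have h8 : Nat.gcd (2 * a) h ≤ 2 * Nat.gcd h a := by
    have h9 : Nat.gcd (2 * a) h ∣ 2 * Nat.gcd h a := by
      rw [← Nat.gcd_mul_left]
      exact Nat.dvd_gcd ((Nat.gcd_dvd_right _ _).trans (dvd_mul_left _ _)) (Nat.gcd_dvd_left _ _)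
    exact Nat.le_of_dvd (by have := Nat.gcd_pos_of_pos_right h ha0; omega) h9
  have h10 : ((Ioo (-(2 * (k:ℤ))) (2 * k)).filter (fun d : ℤ => (2 * (a:ℤ)) ∣ h * d)).card *
      (2 * a) ≤ 2 * (4 * k * Nat.gcd h a) := by
    calc _ ≤ 2 * q * (2 * a) := Nat.mul_le_mul_right _ hcard
      _ = 2 * q * (m * Nat.gcd (2 * a) h) := by rw [hmg]
      _ = 2 * (m * q) * Nat.gcd (2 * a) h := by ring
      _ = 4 * k * Nat.gcd (2 * a) h := by rw [← hq]; ring
      _ ≤ 4 * k * (2 * Nat.gcd h a) := Nat.mul_le_mul_left _ h8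
      _ = _ := by ring
  linarith

theorem cnt2 {k b h : ℕ} (hk : 1 ≤ k) (hb : b ∣ k) (C : ℤ) :
    ((range (2 * k)).filter (fun z : ℕ => (b:ℤ) ∣ h * z + C)).card * b ≤ 2 * k * Nat.gcd h b := by
  have hb0 : 0 < b := Nat.pos_of_dvd_of_pos hb hk
  have hg : 0 < Nat.gcd b h := Nat.gcd_pos_of_pos_left _ hb0
  set m : ℕ := b / Nat.gcd b h with hm
  have hmg : m * Nat.gcd b h = b := Nat.div_mul_cancel (Nat.gcd_dvd_left _ _)
  have hm0 : 0 < m := by
    rcases Nat.eq_zero_or_pos m with h0 | h0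
    · rw [h0, zero_mul] at hmg; omega
    · exact h0
  obtain ⟨q, hq⟩ : m ∣ 2 * k := by
    have h1 : m ∣ b := ⟨_, hmg.symm⟩
    exact (h1.trans hb).trans (dvd_mul_left _ _)
  have hcard : ((range (2 * k)).filter (fun z : ℕ => (b:ℤ) ∣ h * z + C)).card ≤ q := by
    rw [← card_range q]
    refine card_le_card_of_injOn (fun z => z / m) ?_ ?_
    · intro z hz
      have h3 := (mem_filter.1 hz).1
      rw [mem_range] at h3
      show z / m ∈ (range q : Finset ℕ)
      rw [mem_range, Nat.div_lt_iff_lt_mul hm0, mul_comm, ← hq]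
      exact h3
    · intro z hz z' hz' hzz
      have h5 := (mem_filter.1 hz).2
      have h6 := (mem_filter.1 hz').2
      have h7 : (b:ℤ) ∣ h * ((z:ℤ) - z') := by
        have := dvd_sub h5 h6
        have e : (h:ℤ) * z + C - (h * z' + C) = h * ((z:ℤ) - z') := by ring
        rwa [e] at this
      have h8 : (m:ℤ) ∣ (z:ℤ) - z' := div_dvd_int hb0 h7
      have h9 : z' ≡ z [MOD m] := (Nat.modEq_iff_dvd).2 h8
      have h10 : z / m = z' / m := hzz
      have h11 : z % m = z' % m := h9.symm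
      rw [← Nat.div_add_mod z m, ← Nat.div_add_mod z' m, h10, h11]
  calc _ ≤ q * b := Nat.mul_le_mul_right _ hcard
    _ = q * (m * Nat.gcd b h) := by rw [hmg]
    _ = m * q * Nat.gcd b h := by ring
    _ = 2 * k * Nat.gcd h b := by rw [← hq, Nat.gcd_comm]

end Pool.Agent.Y239.SQ
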