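import Pool.Agent.Y856.Sq.Stm
import Pool.Agent.Y239.SQ.CongAux

set_option autoImplicit false

namespace Pool.Agent.Y239.SQ

open Finset

/-- the pairs attached to the divisor `a` of `k` -/
def TT (k h : ℕ) (p a0 e : ℤ) (a : ℕ) : Finset (ℕ × ℕ) :=
  ((range (2 * k)) ×ˢ (range (2 * k))).filter (fun z : ℕ × ℕ =>
    (2 * (a:ℤ)) ∣ h * ((z.1:ℤ) - z.2) ∧
      ((k / a : ℕ) : ℤ) ∣ h * (z.2:ℤ) + (p + h * a0 + h * ((z.1:ℤ) - z.2) / 2 + 2 * e))

theorem card_TT {k h : ℕ} (hk : 1 ≤ k) (hh : 1 ≤ h) (p a0 e : ℤ) {a : ℕ} (ha : a ∣ k) :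
    (TT k h p a0 e a).card ≤ 8 * Nat.gcd h k ^ 2 * k := by
  set b := k / a with hb
  have hab : a * b = k := Nat.mul_div_cancel' ha
  have ha0 : 0 < a := Nat.pos_of_dvd_of_pos ha hk
  have hbk : b ∣ k := ⟨a, by rw [mul_comm]; exact hab.symm⟩
  set DD := (Ioo (-(2 * (k:ℤ))) (2 * k)).filter (fun d : ℤ => (2 * (a:ℤ)) ∣ h * d) with hDD
  have h1 : (TT k h p a0 e a).card ≤ ∑ d ∈ DD, ((range (2 * k)).filter (fun z : ℕ =>
      (b:ℤ) ∣ h * z + (p + h * a0 + h * d / 2 + 2 * e))).card := by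
    have hmaps : ∀ z ∈ TT k h p a0 e a, ((z.1:ℤ) - z.2) ∈ DD := by
      intro z hz
      unfold TT at hz
      rw [mem_filter, mem_product, mem_range, mem_range] at hz
      rw [hDD, mem_filter, mem_Ioo]
      refine ⟨⟨?_, ?_⟩, hz.2.1⟩ <;> omega
    rw [card_eq_sum_card_fiberwise hmaps]
    refine sum_le_sum fun d hd => ?_
    refine card_le_card_of_injOn (fun z => z.2) ?_ ?_
    · intro z hz
      have hz1 := mem_filter.1 hz
      have hz2 := hz1.1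
      unfold TT at hz2
      rw [mem_filter, mem_product, mem_range, mem_range] at hz2
      show z.2 ∈ (range (2 * k)).filter _
      rw [mem_filter, mem_range]
      refine ⟨hz2.1.2, ?_⟩
      have := hz2.2.2
      rw [hz1.2] at this
      exact this
    · intro z hz z' hz' hzz
      have e1 := (mem_filter.1 hz).2
      have e2 := (mem_filter.1 hz').2
      have e3 : z.2 = z'.2 := hzz
      have e4 : z.1 = z'.1 := by omega
      exact Prod.ext e4 e3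
  have h2 := cnt1 (h := h) hk ha
  rw [← hDD] at h2
  have h3 : (TT k h p a0 e a).card * b * a ≤ (2 * k * Nat.gcd h b) * (4 * k * Nat.gcd h a) := by
    calc (TT k h p a0 e a).card * b * a
        ≤ (∑ d ∈ DD, ((range (2 * k)).filter (fun z : ℕ =>
            (b:ℤ) ∣ h * z + (p + h * a0 + h * d / 2 + 2 * e))).card) * b * a :=
          Nat.mul_le_mul_right _ (Nat.mul_le_mul_right _ h1)
      _ = (∑ d ∈ DD, ((range (2 * k)).filter (fun z : ℕ =>
            (b:ℤ) ∣ h * z + (p + h * a0 + h * d / 2 + 2 * e))).card * b) * a := by rw [sum_mul]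
      _ ≤ (∑ d ∈ DD, 2 * k * Nat.gcd h b) * a :=
          Nat.mul_le_mul_right _ (sum_le_sum fun d _ => cnt2 hk hbk _)
      _ = (2 * k * Nat.gcd h b) * (DD.card * a) := by rw [sum_const, smul_eq_mul]; ring
      _ ≤ _ := Nat.mul_le_mul_left _ h2
  have hga : Nat.gcd h a ≤ Nat.gcd h k :=
    Nat.le_of_dvd (Nat.gcd_pos_of_pos_left _ hh) (Nat.gcd_dvd_gcd_of_dvd_right _ ha)
  have hgb : Nat.gcd h b ≤ Nat.gcd h k :=
    Nat.le_of_dvd (Nat.gcd_pos_of_pos_left _ hh) (Nat.gcd_dvd_gcd_of_dvd_right _ hbk)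
  have h4 : (TT k h p a0 e a).card * k ≤ (8 * Nat.gcd h k ^ 2 * k) * k := by
    calc (TT k h p a0 e a).card * k = (TT k h p a0 e a).card * b * a := by rw [← hab]; ring
      _ ≤ (2 * k * Nat.gcd h b) * (4 * k * Nat.gcd h a) := h3
      _ ≤ (2 * k * Nat.gcd h k) * (4 * k * Nat.gcd h k) :=
          Nat.mul_le_mul (Nat.mul_le_mul_left _ hgb) (Nat.mul_le_mul_left _ hga)
      _ = _ := by ring
  exact Nat.le_of_mul_le_mul_right h4 hk

theorem cover {k h : ℕ} (hk : 1 ≤ k) (p a0 e : ℤ) :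
    (((range (2 * k)) ×ˢ (range (2 * k))).filter (fun z : ℕ × ℕ =>
      (2 : ℤ) ∣ p + h * (a0 + z.1) ∧ (2 : ℤ) ∣ p + h * (a0 + z.2) ∧
      (k : ℤ) ∣ ((p + h * (a0 + z.1)) / 2 + e) ^ 2 - ((p + h * (a0 + z.2)) / 2 + e) ^ 2)) ⊆
    k.divisors.biUnion (TT k h p a0 e) := by
  intro z hz
  rw [mem_filter] at hz
  obtain ⟨hz0, ⟨y1, hy1⟩, ⟨y2, hy2⟩, hd⟩ := hz
  rw [hy1, hy2, Int.mul_ediv_cancel_left _ (by norm_num), Int.mul_ediv_cancel_left _ (by norm_num)]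
    at hd
  have hfac : (y1 + e) ^ 2 - (y2 + e) ^ 2 = (y1 - y2) * (y1 + y2 + 2 * e) := by ring
  rw [hfac, Int.natCast_dvd, Int.natAbs_mul] at hd
  set a := Nat.gcd k (y1 - y2).natAbs with ha
  have hak : a ∣ k := Nat.gcd_dvd_left _ _
  have haD : (a:ℤ) ∣ y1 - y2 := by
    rw [Int.natCast_dvd]; exact Nat.gcd_dvd_right _ _
  have hb : k / a ∣ (y1 + y2 + 2 * e).natAbs := div_dvd hk hd
  rw [mem_biUnion]
  refine ⟨a, Nat.mem_divisors.2 ⟨hak, by omega⟩, ?_⟩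
  unfold TT
  rw [mem_filter]
  have hdiff : (h:ℤ) * ((z.1:ℤ) - z.2) = 2 * (y1 - y2) := by linear_combination hy1 - hy2
  refine ⟨hz0, ?_, ?_⟩
  · rw [hdiff]; exact mul_dvd_mul_left 2 haD
  · rw [hdiff, Int.mul_ediv_cancel_left _ (by norm_num)]
    have : (h:ℤ) * (z.2:ℤ) + (p + h * a0 + (y1 - y2) + 2 * e) = y1 + y2 + 2 * e := by
      linear_combination hy2
    rw [this, Int.natCast_dvd]; exact hb

theorem t : Pool.Agent.Y856.Sq.S_cong := by
  intro k h p a0 e hk hh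
  have h1 : (((range (2 * k)) ×ˢ (range (2 * k))).filter (fun z : ℕ × ℕ =>
      (2 : ℤ) ∣ p + h * (a0 + z.1) ∧ (2 : ℤ) ∣ p + h * (a0 + z.2) ∧
      (k : ℤ) ∣ ((p + h * (a0 + z.1)) / 2 + e) ^ 2 - ((p + h * (a0 + z.2)) / 2 + e) ^ 2)).card ≤
      8 * Nat.gcd h k ^ 2 * k * k.divisors.card := by
    refine (card_le_card (cover hk p a0 e)).trans (card_biUnion_le.trans ?_)
    calc ∑ a ∈ k.divisors, (TT k h p a0 e a).card ≤ ∑ a ∈ k.divisors, 8 * Nat.gcd h k ^ 2 * k :=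
          sum_le_sum fun a ha => card_TT hk hh p a0 e (Nat.dvd_of_mem_divisors ha)
      _ = _ := by rw [sum_const, smul_eq_mul]; ring
  exact_mod_cast h1

end Pool.Agent.Y239.SQ
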